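import Pool.Agent.Y581.ET.Abc

/-!
# The k-restricted ET0L hierarchy collapses at k = 2

The definitions (`ET0L`, `Subst`, `ET0L.lang`, `ET0L.Restricted`, `Fam`) are in
`Pool/Agent/Y581/ET/Defs.lean`.

Upper bound: every ET0L language is generated by a 2-restricted system.  The simulating system has
clock letters, one for each phase (`a h` for every table `h`: apply `h`; `b`: rename; `d`: end);
all of them are present except the one of the current phase.  A move from phase `φ` to phase `ψ`
is the table `ψ ↦ φ ⋯, φ ↦ F`.  The table that rewrites a main letter `x` in phase `φ` also
produces all the clock letters except `φ`; in a wrong phase this makes all clock letters present,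
and no clock letter can ever be removed again.  So the phase is tested without a forbidden letter.
That `x` is absent is tested by producing a letter `e x`: the only tables that touch `x` or `e x`
map the other one to the dead letter `F`, so that `x` and `e x` can never be together.  The tests
are produced by the moves; hence no letter can be forgotten, whether or not it occurs.

Lower bound: in a 1-restricted system a table of a shortest control word must turn a letter that
can still derive a terminal word into one that cannot, or else it can be left out without making
`n` smaller in `a^n b^n c^n`, as soon as no single letter derives all three blocks; so `n` is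
bounded.
-/

namespace Pool.Agent.Results.MP_4de4a9_lc.CollapseThresholdTwo

open Pool.Agent.Y581.ET

/-- **The least positive `l` with `Fam A k = Fam A (k + 1)` for all `k ≥ l` is 2.** -/
theorem result (A : Type) [Infinite A] :
    IsLeast {l : ℕ | 1 ≤ l ∧ ∀ k, l ≤ k → Fam A k = Fam A (k + 1)} 2 :=
  threshold A

end Pool.Agent.Results.MP_4de4a9_lc.CollapseThresholdTwo
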